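import Mathlib
import Pool.Agent.Helper278.Defs
import Pool.Agent.Helper278.DefsK
import Pool.Agent.Helper278.KFail

set_option autoImplicit false

namespace Pool.Agent.Results.MP_64d6f1_an.OddFail

open Pool.Agent.Helper278

universe u

variable {H : Type u} [NormedAddCommGroup H] [InnerProductSpace ℂ H] [CompleteSpace H]

/-- With `k`-independence referring to words of length exactly `k`, the lifting fails for every odd
`k ≥ 3`, every diffuse tracial von Neumann algebra and every nonprincipal ultrafilter. -/
theorem result (N : VonNeumannAlgebra H) (τ : Elt N → ℂ) (h1 : IsNormalPositive N τ)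
    (h2 : IsFaithfulTrace τ) (h3 : IsDiffuse N) (k : ℕ) (hk3 : 3 ≤ k) (hk : Odd k) :
    LiftingFails k (Elt N) τ :=
  fails_of_lyap (mkState N τ h1 h2) (lyapProp (mkState N τ h1 h2) h3) k hk3 hk

end Pool.Agent.Results.MP_64d6f1_an.OddFail
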